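import Mathlib

set_option autoImplicit false

namespace Pool.Agent.Results.MP_c55a01_nt.Counter

/-- the `k`-kernel of a sequence -/
def kernel (k : ℕ) (a : ℕ → ℤ) : Set (ℕ → ℤ) :=
  {b | ∃ e j : ℕ, j < k ^ e ∧ b = fun n => a (k ^ e * n + j)}

/-- finitely many values and finite `k`-kernel -/
def IsAutomaticBase (k : ℕ) (a : ℕ → ℤ) : Prop :=
  (Set.range a).Finite ∧ (kernel k a).Finite

def IsAutomatic (a : ℕ → ℤ) : Prop := ∃ k : ℕ, 2 ≤ k ∧ IsAutomaticBase k a

def S (n : ℕ) : ℤ :=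
  if h : n = 0 then 0 else - S (n / 2) + (if n % 2 = (n / 2) % 2 then 0 else 1)
decreasing_by omega

lemma S_zero : S 0 = 0 := by rw [S]; simp

lemma S_even (n : ℕ) : S (2 * n) = - S n + (if n % 2 = 0 then 0 else 1) := by
  rcases Nat.eq_zero_or_pos n with rfl | hn
  · simp [S_zero]
  · rw [S, dif_neg (by omega)]
    have h1 : 2 * n / 2 = n := by omega
    rw [h1]
    congr 1
    split_ifs <;> first | rfl | omega

lemma S_odd (n : ℕ) : S (2 * n + 1) = - S n + (if n % 2 = 0 then 1 else 0) := by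
  rw [S, dif_neg (by omega)]
  have h1 : (2 * n + 1) / 2 = n := by omega
  rw [h1]
  congr 1
  split_ifs <;> first | rfl | omega

def e (n : ℕ) : ℤ := S n - S (n - 1)

def alt (n : ℕ) : ℤ := if n % 2 = 0 then 1 else -1

lemma e_even (n : ℕ) : e (2 * n) = - e n := by
  rcases n with _ | n
  · simp [e]
  · unfold e
    have h1 : 2 * (n + 1) - 1 = 2 * n + 1 := by omega
    rw [h1, S_even, S_odd, Nat.add_sub_cancel]
    split_ifs <;> first | omega | ring

lemma e_odd (n : ℕ) : e (2 * n + 1) = alt n := by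
  unfold e alt
  rw [Nat.add_sub_cancel, S_even, S_odd]
  split_ifs <;> ring

lemma e_cases (n : ℕ) : e n = 0 ∨ e n = 1 ∨ e n = -1 := by
  induction n using Nat.strong_induction_on with
  | _ n ih =>
    rcases Nat.eq_zero_or_pos n with rfl | hn
    · simp [e]
    · rcases Nat.even_or_odd' n with ⟨m, rfl | rfl⟩
      · rw [e_even]
        have := ih m (by omega)
        omega
      · rw [e_odd]; unfold alt; split_ifs <;> simp

lemma S_step (n : ℕ) : |S (n + 1) - S n| ≤ 1 := by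
  have := e_cases (n + 1)
  unfold e at this
  rw [Nat.add_sub_cancel] at this
  rcases this with h | h | h <;> rw [h] <;> simp

lemma S_lip (n i : ℕ) : |S (n + i) - S n| ≤ i := by
  induction i with
  | zero => simp
  | succ i ih =>
    have h := S_step (n + i)
    rw [abs_le] at *
    rw [← add_assoc]
    push_cast
    constructor <;> linarith [h.1, h.2, ih.1, ih.2]

def a (n : ℕ) : ℤ := if n % 2 = 0 then e (n / 2) else 0

def r (n : ℕ) : ℤ := if n % 2 = 0 then S (n / 2) else 1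

def K : Set (ℕ → ℤ) :=
  {a, fun _ => 0, e, fun n => - e n, alt, fun n => - alt n, fun _ => 1, fun _ => -1}

lemma K_closed (f : ℕ → ℤ) (hf : f ∈ K) :
    (fun n => f (2 * n)) ∈ K ∧ (fun n => f (2 * n + 1)) ∈ K := by
  have h1 : ∀ n, a (2 * n) = e n := by
    intro n; unfold a; rw [if_pos (by omega)]; congr 1; omega
  have h2 : ∀ n, a (2 * n + 1) = 0 := by
    intro n; unfold a; rw [if_neg (by omega)]
  have h3 : ∀ n, alt (2 * n) = 1 := by
    intro n; unfold alt; rw [if_pos (by omega)]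
  have h4 : ∀ n, alt (2 * n + 1) = -1 := by
    intro n; unfold alt; rw [if_neg (by omega)]
  simp only [K, Set.mem_insert_iff, Set.mem_singleton_iff] at hf ⊢
  rcases hf with rfl | rfl | rfl | rfl | rfl | rfl | rfl | rfl <;>
    simp [h1, h2, h3, h4, e_even, e_odd]

lemma kernel_sub : kernel 2 a ⊆ K := by
  rintro b ⟨E, j, hj, rfl⟩
  induction E generalizing j with
  | zero =>
    have : j = 0 := by simpa using hj
    subst this
    left; funext n; simp
  | succ E ih =>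
    by_cases h : j < 2 ^ E
    · have := (K_closed _ (ih j h)).1
      convert this using 3
      ring
    · have hj' : j - 2 ^ E < 2 ^ E := by rw [pow_succ] at hj; omega
      have := (K_closed _ (ih _ hj')).2
      convert this using 3
      have : j = (j - 2 ^ E) + 2 ^ E := by omega
      rw [pow_succ]
      generalize j - 2 ^ E = q at *
      rw [this]; ring

lemma a_auto : IsAutomaticBase 2 a := by
  constructor
  · apply (Set.toFinite ({0, 1, -1} : Set ℤ)).subset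
    rintro x ⟨n, rfl⟩
    unfold a
    split_ifs
    · simpa using e_cases (n / 2)
    · simp
  · apply Set.Finite.subset _ kernel_sub
    unfold K
    exact Set.toFinite _

lemma r_rec (n : ℕ) : r (n + 2) = a (n + 2) * r (n + 1) + r n := by
  rcases Nat.even_or_odd' n with ⟨m, rfl | rfl⟩
  · unfold r a e
    rw [if_pos (by omega), if_pos (by omega), if_neg (by omega), if_pos (by omega)]
    have h1 : (2 * m + 2) / 2 = m + 1 := by omega
    have h2 : (2 * m) / 2 = m := by omega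
    rw [h1, h2, Nat.add_sub_cancel]; ring
  · unfold r a
    rw [if_neg (by omega), if_neg (by omega), if_pos (by omega), if_neg (by omega)]
    ring

lemma child (n : ℕ) : (∃ c, c < 2 ∧ S (2 * n + c) = - S n) ∧
    (∃ c, c < 2 ∧ S (2 * n + c) = 1 - S n) := by
  by_cases h : n % 2 = 0
  · refine ⟨⟨0, by omega, ?_⟩, ⟨1, by omega, ?_⟩⟩
    · rw [add_zero, S_even, if_pos h]; ring
    · rw [S_odd, if_pos h]; ring
  · refine ⟨⟨1, by omega, ?_⟩, ⟨0, by omega, ?_⟩⟩
    · rw [S_odd, if_neg h]; ring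
    · rw [add_zero, S_even, if_neg h]; ring

lemma S_big (m : ℕ) : ∃ n, S n = m := by
  induction m with
  | zero => exact ⟨0, by simp [S_zero]⟩
  | succ m ih =>
    obtain ⟨n, hn⟩ := ih
    obtain ⟨c, -, hc⟩ := (child n).1
    obtain ⟨d, -, hd⟩ := (child (2 * n + c)).2
    exact ⟨_, by rw [hd, hc, hn]; push_cast; ring⟩

lemma zero_in_block (t : ℕ) : ∀ n : ℕ, (S n ≤ 0 ∧ - 2 * S n ≤ t ∨ 0 < S n ∧ 2 * S n - 1 ≤ t) →
    ∃ c, c < 2 ^ t ∧ S (2 ^ t * n + c) = 0 := by
  induction t with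
  | zero =>
    intro n hn
    refine ⟨0, by simp, ?_⟩
    simp only [pow_zero, one_mul, add_zero]
    push_cast at hn
    omega
  | succ t ih =>
    intro n hn
    push_cast at hn
    have key : ∀ c, c < 2 → (S (2 * n + c) ≤ 0 ∧ - 2 * S (2 * n + c) ≤ t ∨
        0 < S (2 * n + c) ∧ 2 * S (2 * n + c) - 1 ≤ t) →
        ∃ c, c < 2 ^ (t + 1) ∧ S (2 ^ (t + 1) * n + c) = 0 := by
      intro c hc h
      obtain ⟨d, hd, hd0⟩ := ih _ h
      refine ⟨2 ^ t * c + d, ?_, ?_⟩
      · rw [pow_succ]; nlinarith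
      · rw [← hd0]; congr 1; ring
    rcases hn with hn | hn
    · obtain ⟨c, hc, h⟩ := (child n).1
      apply key c hc
      rw [h]; omega
    · obtain ⟨c, hc, h⟩ := (child n).2
      apply key c hc
      rw [h]; omega

lemma zero_in_interval (r0 : ℕ) : ∃ X0 : ℕ, ∀ X, X0 ≤ X →
    ∃ c, c < X ∧ r (X * r0 + c) = 0 := by
  refine ⟨2 ^ (8 * r0 + 20), fun X hX => ?_⟩
  have hX0 : X ≠ 0 := by
    have : 0 < 2 ^ (8 * r0 + 20) := by positivity
    omega
  have h1 : 2 ^ Nat.log 2 X ≤ X := Nat.pow_log_le_self 2 hX0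
  have h2 : X < 2 ^ (Nat.log 2 X + 1) := Nat.lt_pow_succ_log_self (by norm_num) X
  have h3 : 8 * r0 + 20 ≤ Nat.log 2 X := Nat.le_log_of_pow_le (by norm_num) hX
  obtain ⟨t, ht⟩ : ∃ t, Nat.log 2 X = t + 2 := ⟨Nat.log 2 X - 2, by omega⟩
  rw [ht] at h1 h2 h3
  have h1' : 4 * 2 ^ t ≤ X := by rw [pow_add] at h1; omega
  have h2' : X < 8 * 2 ^ t := by rw [pow_add, pow_add] at h2; omega
  have hP : 0 < 2 ^ t := by positivity
  set n := X * r0 / (2 * 2 ^ t) + 1 with hn
  have hq1 := Nat.div_add_mod (X * r0) (2 * 2 ^ t)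
  have hq2 := Nat.mod_lt (X * r0) (show 0 < 2 * 2 ^ t by omega)
  have hnle : X * r0 / (2 * 2 ^ t) ≤ 4 * r0 := by
    apply Nat.div_le_of_le_mul
    nlinarith
  have hS := S_lip 0 n
  rw [zero_add, S_zero, sub_zero, abs_le] at hS
  have hn' : (n : ℤ) ≤ 4 * r0 + 1 := by exact_mod_cast (by omega : n ≤ 4 * r0 + 1)
  have ht' : (8 * r0 + 18 : ℤ) ≤ t := by exact_mod_cast (by omega : 8 * r0 + 18 ≤ t)
  obtain ⟨c, hc, hc0⟩ := zero_in_block t n (by omega)
  have hmul : 2 * (2 ^ t * n) = 2 * 2 ^ t * (X * r0 / (2 * 2 ^ t)) + 2 * 2 ^ t := by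
    rw [hn]; ring
  refine ⟨2 * (2 ^ t * n + c) - X * r0, by omega, ?_⟩
  have : X * r0 + (2 * (2 ^ t * n + c) - X * r0) = 2 * (2 ^ t * n + c) := by omega
  rw [this]
  unfold r
  rw [if_pos (by omega), ← hc0]
  congr 1; omega

lemma long_run (L : ℕ) : ∃ n, ∀ c, c < L → r (n + c) ≠ 0 := by
  obtain ⟨n, hn⟩ := S_big L
  refine ⟨2 * n, fun c hc => ?_⟩
  unfold r
  split_ifs with h
  · have h1 : (2 * n + c) / 2 = n + c / 2 := by omega
    rw [h1]
    have := S_lip n (c / 2)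
    rw [abs_le, hn] at this
    have h2 : ((c / 2 : ℕ) : ℤ) < L := by exact_mod_cast (by omega : c / 2 < L)
    omega
  · simp

lemma gap (k : ℕ) (hk : 2 ≤ k) (b : ℕ → ℤ) (hb : (kernel k b).Finite)
    (hrun : ∀ L, ∃ n, ∀ c, c < L → b (n + c) ≠ 0) :
    ∃ r0, ∀ J, ∃ j, J ≤ j ∧ ∀ c, c < k ^ j → b (k ^ j * r0 + c) ≠ 0 := by
  have h1 : ∀ j : ℕ, ∃ q, ∀ c, c < k ^ j → b (k ^ j * q + c) ≠ 0 := by
    intro j
    obtain ⟨n, hn⟩ := hrun (2 * k ^ j)
    have hP : 0 < k ^ j := by positivity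
    generalize k ^ j = P at *
    refine ⟨n / P + 1, fun c hc => ?_⟩
    have hq1 := Nat.div_add_mod n P
    have hq2 := Nat.mod_lt n hP
    have h3 : P - n % P + c < 2 * P := by
      have := Nat.sub_le P (n % P)
      omega
    have := hn (P - n % P + c) h3
    convert this using 2
    rw [mul_add]
    generalize n % P = u at *
    generalize P * (n / P) = w at *
    omega
  choose q hq using h1
  haveI := hb.to_subtype
  let v : ℕ → (kernel k b → Prop) := fun j f => f.1 (q j) = 0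
  obtain ⟨w, hw⟩ := Finite.exists_infinite_fiber v
  have hinf : (v ⁻¹' {w}).Infinite := Set.infinite_coe_iff.mp hw
  obtain ⟨j0, hj0⟩ := hinf.nonempty
  refine ⟨q j0, fun J => ?_⟩
  obtain ⟨j, hj, hJ⟩ := hinf.exists_gt J
  refine ⟨j, hJ.le, fun c hc h0 => ?_⟩
  have hv : v j = v j0 := by
    rw [Set.mem_preimage, Set.mem_singleton_iff] at hj hj0
    rw [hj, hj0]
  have := congrFun hv ⟨fun n => b (k ^ j * n + c), j, c, hc, rfl⟩
  apply hq j c hc
  simp only [v] at this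
  rw [this]; exact h0

theorem result : ∃ a r : ℕ → ℤ, IsAutomatic a ∧ r 0 = 0 ∧ r 1 = 1 ∧
    (∀ n, 2 ≤ n → r n = a n * r (n - 1) + r (n - 2)) ∧
    ¬ IsAutomatic (fun n => Int.sign (r n)) := by
  refine ⟨a, r, ⟨2, le_rfl, a_auto⟩, by simp [r, S_zero], by simp [r], ?_, ?_⟩
  · intro n hn
    obtain ⟨m, rfl⟩ : ∃ m, n = m + 2 := ⟨n - 2, by omega⟩
    exact r_rec m
  · rintro ⟨k, hk, -, hfin⟩
    obtain ⟨r0, hr0⟩ := gap k hk _ hfin (fun L => by
      obtain ⟨n, hn⟩ := long_run L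
      exact ⟨n, fun c hc => by simpa using hn c hc⟩)
    obtain ⟨X0, hX0⟩ := zero_in_interval r0
    obtain ⟨j, hj, hjc⟩ := hr0 X0
    have hle : X0 ≤ k ^ j := hj.trans (Nat.lt_pow_self (by omega)).le
    obtain ⟨c, hc, hc0⟩ := hX0 _ hle
    exact hjc c hc (by simp [hc0])

end Pool.Agent.Results.MP_c55a01_nt.Counter
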